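import Pool.Agent.H46.PHW.Core

/-!
# PHW: failures of the inequality of Q1 for any parameters `B ≥ 2`, `α ≥ 1`

A failure at `(x, y)` (for any `β ≥ 0`) makes the triple of `w = x y ^ B` satisfy `c ≥ R ^ (2 / 3)`.
-/

set_option autoImplicit false

namespace Pool.PHW

open Pool.Agent.H81.PHL (rad lhs_eq log_rad rad_pos rad_dvd dvd_rad num_den_add_one lp decomp)
open Pool.Agent.H21.PHX (H Phil)

lemma arith {B ℓ r h s : ℝ} (hB : 2 ≤ B) (hℓ : 0 ≤ ℓ) (hr : 0 ≤ r)
    (g1 : B * h + (B ^ 2 - 1) * r < ℓ) (g2 : B * s ≤ 2 * (B - 1) * h + 2 * ℓ) :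
    2 / 3 * (r + s) ≤ ℓ := by
  by_contra hcon
  push Not at hcon
  have hB0 : 0 < B := by linarith
  have h1 : B ^ 2 * ℓ < B ^ 2 * (2 / 3 * (r + s)) := mul_lt_mul_of_pos_left hcon (by positivity)
  have e1 : B ^ 2 * (2 / 3 * (r + s)) = 2 / 3 * (B ^ 2 * r + B * (B * s)) := by ring
  have h2 : B * (B * s) ≤ B * (2 * (B - 1) * h + 2 * ℓ) := mul_le_mul_of_nonneg_left g2 hB0.le
  have e2 : B * (2 * (B - 1) * h + 2 * ℓ) = 2 * ((B - 1) * (B * h)) + 2 * (B * ℓ) := by ring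
  have h3 : (B - 1) * (B * h) ≤ (B - 1) * (ℓ - (B ^ 2 - 1) * r) :=
    mul_le_mul_of_nonneg_left (by linarith) (by linarith)
  have e3 : (B - 1) * (ℓ - (B ^ 2 - 1) * r) = B * ℓ - ℓ - (B - 1) * (B ^ 2 - 1) * r := by ring
  have p1 : 0 ≤ (3 * B - 2) * (B - 2) * ℓ :=
    mul_nonneg (mul_nonneg (by linarith) (by linarith)) hℓ
  have e4 : (3 * B - 2) * (B - 2) * ℓ = 3 * (B ^ 2 * ℓ) - 8 * (B * ℓ) + 4 * ℓ := by ring
  have h5 : B ^ 2 - 1 ≤ (B - 1) * (B ^ 2 - 1) := by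
    have h6 : 0 ≤ B ^ 2 - 1 := by nlinarith
    have h7 : 1 * (B ^ 2 - 1) ≤ (B - 1) * (B ^ 2 - 1) :=
      mul_le_mul_of_nonneg_right (by linarith) h6
    linarith
  have p2 : 0 ≤ (4 * ((B - 1) * (B ^ 2 - 1)) - 2 * B ^ 2) * r := by
    refine mul_nonneg ?_ hr
    nlinarith
  have e5 : (4 * ((B - 1) * (B ^ 2 - 1)) - 2 * B ^ 2) * r =
      4 * ((B - 1) * (B ^ 2 - 1) * r) - 2 * (B ^ 2 * r) := by ring
  rw [e1] at h1
  rw [e2] at h2
  rw [e3] at h3
  rw [e4] at p1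
  rw [e5] at p2
  linarith

theorem core2 {B : ℕ} (hB2 : 2 ≤ B) {α ε : ℝ} (hα : 1 ≤ α) (hε : 0 ≤ ε) {β : ℝ} (hβ : 0 ≤ β)
    {x y : ℚ} (hx : x ≠ 0) (hy : y ≠ 0) (hz2 : x * y ^ B ≠ -1) (hf : ¬ Phil B α β ε x y) {c : ℝ}
    (hc1 : ((x * y ^ B).num.natAbs : ℝ) ≤ c) (hc2 : (((x * y ^ B).den : ℕ) : ℝ) ≤ c) :
    2 / 3 * Real.log (rad ((x * y ^ B + 1).num.natAbs * (x * y ^ B).num.natAbs *
      (x * y ^ B).den) : ℝ) ≤ Real.log c := by
  by_contra hcon
  push Not at hcon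
  apply hf
  have hB1 : (2:ℝ) ≤ B := by exact_mod_cast hB2
  have hB0 : (0:ℝ) < B := by linarith
  have hαB : (B : ℝ) ≤ α * B := by nlinarith
  have hl2 : 0 < Real.log 2 := Real.log_pos (by norm_num)
  unfold Phil Pool.Agent.H21.PHX.S Pool.Agent.H21.PHX.H
  set z := x * y ^ B with hz
  have hz0 : z ≠ 0 := mul_ne_zero hx (pow_ne_zero _ hy)
  have hw0 : z + 1 ≠ 0 := by
    intro hcontra; apply hz2; linarith
  rw [lhs_eq _ hw0, ← log_rad]
  obtain ⟨u, v, a', b', g1, g2, hu, hv, ha', hb', hg1, hg2, eu, ev, ea, eb, ez, ed⟩ :=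
    decomp x y hx hy B
  rw [← hz] at ez ed
  set n := (z + 1).num.natAbs with hn
  have hn0 : 0 < n := Int.natAbs_pos.2 (Rat.num_ne_zero.2 hw0)
  have hle4 : n ≤ z.num.natAbs + z.den := by
    obtain ⟨hnum, hden⟩ := num_den_add_one z
    rw [hn, hnum]
    have := Int.natAbs_add_le z.num (z.den : ℤ)
    rwa [Int.natAbs_natCast] at this
  have hxn0 : 0 < x.num.natAbs := Int.natAbs_pos.2 (Rat.num_ne_zero.2 hx)
  have hyn0 : 0 < y.num.natAbs := Int.natAbs_pos.2 (Rat.num_ne_zero.2 hy)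
  have hxa : |((x.num : ℤ) : ℝ)| = (x.num.natAbs : ℝ) := by
    rw [Nat.cast_natAbs]; push_cast; rfl
  have hya : |((y.num : ℤ) : ℝ)| = (y.num.natAbs : ℝ) := by
    rw [Nat.cast_natAbs]; push_cast; rfl
  rw [hxa, hya]
  set hX := Real.log (max (x.num.natAbs : ℝ) (x.den : ℝ)) with hhX
  set hY := Real.log (max (y.num.natAbs : ℝ) (y.den : ℝ)) with hhY
  have hxn1 : (1 : ℝ) ≤ (x.num.natAbs : ℝ) := by exact_mod_cast hxn0
  have hyn1 : (1 : ℝ) ≤ (y.num.natAbs : ℝ) := by exact_mod_cast hyn0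
  have hxd1 : (1 : ℝ) ≤ (x.den : ℝ) := by exact_mod_cast x.den_pos
  have hyd1 : (1 : ℝ) ≤ (y.den : ℝ) := by exact_mod_cast y.den_pos
  have hX1 : Real.log (x.num.natAbs : ℝ) ≤ hX := Real.log_le_log (by linarith) (le_max_left _ _)
  have hX2 : Real.log (x.den : ℝ) ≤ hX := Real.log_le_log (by linarith) (le_max_right _ _)
  have hY1 : Real.log (y.num.natAbs : ℝ) ≤ hY := Real.log_le_log (by linarith) (le_max_left _ _)
  have hY2 : Real.log (y.den : ℝ) ≤ hY := Real.log_le_log (by linarith) (le_max_right _ _)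
  have hY0 : 0 ≤ hY := (Real.log_nonneg hyn1).trans hY1
  -- logarithms
  have pos : ∀ m : ℕ, 0 < m → (0:ℝ) < (m:ℝ) := fun m hm => by exact_mod_cast hm
  have lnn : ∀ m : ℕ, 0 < m → 0 ≤ Real.log (m:ℝ) := fun m hm =>
    Real.log_nonneg (by exact_mod_cast hm)
  have eU : Real.log (u:ℝ) + Real.log (g1:ℝ) = Real.log (x.num.natAbs : ℝ) := by
    rw [← Real.log_mul (pos u hu).ne' (pos g1 hg1).ne', ← Nat.cast_mul, eu]
  have eV : Real.log (v:ℝ) + Real.log (g2:ℝ) = Real.log (x.den : ℝ) := by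
    rw [← Real.log_mul (pos v hv).ne' (pos g2 hg2).ne', ← Nat.cast_mul, ev]
  have eA : Real.log (a':ℝ) + Real.log (g2:ℝ) = B * Real.log (y.num.natAbs : ℝ) := by
    rw [← Real.log_mul (pos a' ha').ne' (pos g2 hg2).ne', ← Nat.cast_mul, ea, Nat.cast_pow,
      Real.log_pow]
  have eB : Real.log (b':ℝ) + Real.log (g1:ℝ) = B * Real.log (y.den : ℝ) := by
    rw [← Real.log_mul (pos b' hb').ne' (pos g1 hg1).ne', ← Nat.cast_mul, eb, Nat.cast_pow,
      Real.log_pow]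
  have eZ : Real.log (z.num.natAbs : ℝ) = Real.log (u:ℝ) + Real.log (a':ℝ) := by
    rw [ez, Nat.cast_mul, Real.log_mul (pos u hu).ne' (pos a' ha').ne']
  have eD : Real.log (z.den : ℝ) = Real.log (v:ℝ) + Real.log (b':ℝ) := by
    rw [ed, Nat.cast_mul, Real.log_mul (pos v hv).ne' (pos b' hb').ne']
  -- the radical
  set r := Real.log (rad n : ℝ) with hr
  have hr0 : 0 ≤ r := lnn _ (rad_pos n)
  have hraddvd : rad (n * z.num.natAbs * z.den) ∣
      rad n * ((u * y.num.natAbs) * (v * y.den)) := by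
    apply rad_dvd
    intro p hp hpd
    rcases (Nat.Prime.dvd_mul hp).1 hpd with h1 | h1
    · rcases (Nat.Prime.dvd_mul hp).1 h1 with h2 | h2
      · exact Dvd.dvd.mul_right (dvd_rad hn0.ne' hp h2) _
      · apply Dvd.dvd.mul_left
        apply Dvd.dvd.mul_right
        rw [ez] at h2
        rcases (Nat.Prime.dvd_mul hp).1 h2 with h3 | h3
        · exact Dvd.dvd.mul_right h3 _
        · apply Dvd.dvd.mul_left
          have h4 : p ∣ y.num.natAbs ^ B := by rw [← ea]; exact Dvd.dvd.mul_right h3 _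
          exact hp.dvd_of_dvd_pow h4
    · apply Dvd.dvd.mul_left
      apply Dvd.dvd.mul_left
      rw [ed] at h1
      rcases (Nat.Prime.dvd_mul hp).1 h1 with h3 | h3
      · exact Dvd.dvd.mul_right h3 _
      · apply Dvd.dvd.mul_left
        have h4 : p ∣ y.den ^ B := by rw [← eb]; exact Dvd.dvd.mul_right h3 _
        exact hp.dvd_of_dvd_pow h4
  have hradle : Real.log (rad (n * z.num.natAbs * z.den) : ℝ) ≤
      r + Real.log (u:ℝ) + Real.log (y.num.natAbs : ℝ) + Real.log (v:ℝ) + Real.log (y.den : ℝ) := by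
    have h1 : rad (n * z.num.natAbs * z.den) ≤ rad n * ((u * y.num.natAbs) * (v * y.den)) := by
      apply Nat.le_of_dvd _ hraddvd
      have := rad_pos n
      have h4 := y.den_pos
      positivity
    have h2 : (rad (n * z.num.natAbs * z.den) : ℝ) ≤
        (rad n : ℝ) * (((u : ℝ) * (y.num.natAbs : ℝ)) * ((v : ℝ) * (y.den : ℝ))) := by
      exact_mod_cast h1
    have h0 : (0 : ℝ) < (rad (n * z.num.natAbs * z.den) : ℝ) := by exact_mod_cast rad_pos _
    have h3 := Real.log_le_log h0 h2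
    have g1' : (rad n : ℝ) ≠ 0 := (pos _ (rad_pos n)).ne'
    have g2' : (u : ℝ) ≠ 0 := (pos u hu).ne'
    have g3' : (y.num.natAbs : ℝ) ≠ 0 := by linarith
    have g4' : (v : ℝ) ≠ 0 := (pos v hv).ne'
    have g5' : (y.den : ℝ) ≠ 0 := by linarith
    rw [Real.log_mul g1' (by positivity), Real.log_mul (by positivity) (by positivity),
      Real.log_mul g2' g3', Real.log_mul g4' g5'] at h3
    linarith
  have m1 : Real.log (z.num.natAbs : ℝ) ≤ Real.log c := by
    apply Real.log_le_log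
    · exact pos _ (Int.natAbs_pos.2 (Rat.num_ne_zero.2 hz0))
    · exact hc1
  have m2 : Real.log (z.den : ℝ) ≤ Real.log c := by
    apply Real.log_le_log
    · exact pos _ z.den_pos
    · exact hc2
  set U := Real.log (u:ℝ) with hU
  set V := Real.log (v:ℝ) with hV
  set A := Real.log (y.num.natAbs : ℝ) with hA
  set C := Real.log (y.den : ℝ) with hC
  set G1 := Real.log (g1:ℝ) with hG1
  set G2 := Real.log (g2:ℝ) with hG2
  have hU0 := lnn u hu
  have hV0 := lnn v hv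
  have hA0 := lnn _ hyn0
  have hC0 := lnn _ y.den_pos
  have hG10 := lnn g1 hg1
  have hG20 := lnn g2 hg2
  have n1 : Real.log (z.num.natAbs : ℝ) = U + B * A - G2 := by linarith
  have n2 : Real.log (z.den : ℝ) = V + B * C - G1 := by linarith
  have hn1 : Real.log (n : ℝ) ≤ Real.log 2 + max (U + B * A - G2) (V + B * C - G1) := by
    rw [← n1, ← n2]
    have h1 : (n : ℝ) ≤ 2 * max (z.num.natAbs : ℝ) (z.den : ℝ) := by
      have h2 : (n : ℝ) ≤ (z.num.natAbs : ℝ) + (z.den : ℝ) := by exact_mod_cast hle4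
      have h3 := le_max_left (z.num.natAbs : ℝ) (z.den : ℝ)
      have h4 := le_max_right (z.num.natAbs : ℝ) (z.den : ℝ)
      linarith
    have h0 : (0:ℝ) < (z.num.natAbs : ℝ) := pos _ (Int.natAbs_pos.2 (Rat.num_ne_zero.2 hz0))
    have h00 : (0:ℝ) < (z.den : ℝ) := pos _ z.den_pos
    have h5 : Real.log (n : ℝ) ≤ Real.log 2 + Real.log (max (z.num.natAbs : ℝ) (z.den : ℝ)) := by
      rw [← Real.log_mul (by norm_num) (lt_max_of_lt_left h0).ne']
      exact Real.log_le_log (pos n hn0) h1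
    refine h5.trans ?_
    rcases max_choice (z.num.natAbs : ℝ) (z.den : ℝ) with h6 | h6
    · rw [h6]
      have := le_max_left (Real.log (z.num.natAbs : ℝ)) (Real.log (z.den : ℝ))
      linarith
    · rw [h6]
      have := le_max_right (Real.log (z.num.natAbs : ℝ)) (Real.log (z.den : ℝ))
      linarith
  have hX0 : 0 ≤ hX := (lnn _ hxn0).trans hX1
  have hcpos : 0 < c := lt_of_lt_of_le (pos _ z.den_pos) hc2
  have hmaxc : max (U + B * A - G2) (V + B * C - G1) ≤ Real.log c := by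
    rw [← n1, ← n2]
    exact max_le m1 m2
  have hM0 : 0 ≤ (B:ℝ) * (α * B + ε) := mul_nonneg hB0.le (by linarith)
  have hM1 : (B : ℝ) ^ 2 ≤ B * (α * B + ε) := by nlinarith
  have f1 : 0 ≤ (B:ℝ) * (α * B + ε) * β := mul_nonneg hM0 hβ
  have f2 : (B : ℝ) ^ 2 * r ≤ (B:ℝ) * (α * B + ε) * r := mul_le_mul_of_nonneg_right hM1 hr0
  have f3 : (B:ℝ) * (α * B + ε) * (β + r) = (B:ℝ) * (α * B + ε) * β + (B:ℝ) * (α * B + ε) * r := by
    ring
  have f4 : (B : ℝ) * hX ≤ α * B * hX := mul_le_mul_of_nonneg_right hαB hX0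
  have f5 : 0 ≤ ε * B * hY := mul_nonneg (mul_nonneg hε hB0.le) hY0
  rw [f3]
  rcases Nat.lt_or_ge n 2 with hn2 | hn2
  · have hn1' : n = 1 := by omega
    have e0 : Real.log (n : ℝ) = 0 := by rw [hn1']; simp
    rw [e0]
    have h1 : 0 ≤ (B : ℝ) * hX := mul_nonneg hB0.le hX0
    have h3 : 0 ≤ (B : ℝ) ^ 2 * r := mul_nonneg (by positivity) hr0
    linarith
  · have hr2 : Real.log 2 ≤ r := by
      rw [hr]
      apply Real.log_le_log (by norm_num)
      obtain ⟨p, hp, hpn⟩ := Nat.exists_prime_and_dvd (show n ≠ 1 by omega)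
      have h1 : p ∣ rad n := dvd_rad hn0.ne' hp hpn
      have h2 : p ≤ rad n := Nat.le_of_dvd (rad_pos n) h1
      exact_mod_cast hp.two_le.trans h2
    -- `log c` against the radical
    by_contra hcon2
    push Not at hcon2
    set ℓ := Real.log c with hℓ
    have g1 : (B : ℝ) * hX + ((B : ℝ) ^ 2 - 1) * r < ℓ := by
      have : ((B : ℝ) ^ 2 - 1) * r = (B : ℝ) ^ 2 * r - r := by ring
      linarith
    have g2 : B * (U + A + V + C) ≤ 2 * (B - 1) * hX + 2 * ℓ := by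
      have h1 := le_max_left (U + B * A - G2) (V + B * C - G1)
      have h2 := le_max_right (U + B * A - G2) (V + B * C - G1)
      have h3 : U + V + G1 + G2 ≤ 2 * hX := by linarith
      have h4 : (B - 1) * (U + V + G1 + G2) ≤ (B - 1) * (2 * hX) :=
        mul_le_mul_of_nonneg_left h3 (by linarith)
      have h5 : 0 ≤ (B - 2) * (G1 + G2) := mul_nonneg (by linarith) (by linarith)
      have h6 : (B - 1) * (U + V + G1 + G2) = B * U + B * V - U - V + (B - 2) * (G1 + G2) +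
        G1 + G2 := by ring
      have h7 : B * (U + A + V + C) = B * U + B * A + B * V + B * C := by ring
      have h8 : (B - 1) * (2 * hX) = 2 * (B - 1) * hX := by ring
      rw [h7]
      linarith
    have hℓ0 : 0 ≤ ℓ := le_trans (lnn z.den z.den_pos) m2
    have := arith hB1 hℓ0 hr0 g1 g2
    have e1 : r + U + A + V + C = r + (U + A + V + C) := by ring
    rw [e1] at hradle
    linarith

end Pool.PHW
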