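import Pool.Agent.H46.PHW.Phw
import Pool.Agent.H46.PHW.Core2

/-!
# PHW: the inequality of Q1 for any parameters `B ≥ 2`, `α ≥ 1`, `β, ε ≥ 0`
-/

set_option autoImplicit false

namespace Pool.PHW

open Pool.Agent.H21.PHX (H Phil num_den_div)

/-- few triples with `c ≥ R ^ θ` of polynomial height: exponent `T` -/
def S_CU (θ T : ℝ) : Prop := ∀ κ ε : ℝ, 1 ≤ κ → 0 < ε → ∃ C : ℝ, 1 ≤ C ∧
  ∀ (X : ℝ) (F : Finset (ℕ × ℕ)), 1 ≤ X →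
  (∀ v ∈ F, Pool.Agent.H98.ABCR.IsTri v ∧ (Pool.Agent.H98.ABCR.RR v : ℝ) ≤ X ∧
    θ * Real.log (Pool.Agent.H98.ABCR.RR v) ≤ Pool.SHA.hh v ∧
    Pool.SHA.hh v ≤ κ * Real.log (Pool.Agent.H98.ABCR.RR v)) →
  (F.card : ℝ) ≤ C * X ^ (T + ε)

/-- the radical of a triple -/
def Rt (t : ℕ × ℕ) : ℕ := ∏ p ∈ (t.1 * t.2 * (t.1 + t.2)).primeFactors, p

lemma one_le_Rt (t : ℕ × ℕ) : (1 : ℝ) ≤ (Rt t : ℝ) := by
  have : 0 < Rt t := Finset.prod_pos fun p hp => (Nat.prime_of_mem_primeFactors hp).pos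
  exact_mod_cast this

/-- triples with `c ≥ R ^ θ` -/
def Hi (θ X : ℝ) : Set (ℕ × ℕ) :=
  {t | t ∈ Pool.VIO.Tri X ∧ θ * Real.log (Rt t : ℝ) ≤ Real.log ((t.1 + t.2 : ℕ) : ℝ)}

/-- a bad `w` has a triple with `c ≥ R ^ (2 / 3)` -/
theorem bad_hi {B : ℕ} (hB : 2 ≤ B) {α ε : ℝ} (hα : 1 ≤ α) (hε : 0 ≤ ε) {X : ℝ} {w : ℚ}
    (hw : w ∈ W X) (hb : Bad B α ε w) :
    ∃ t ∈ Hi (2 / 3) X, (w = (t.1 : ℚ) / t.2 ∨ w = -(((t.1 + t.2 : ℕ) : ℚ) / t.2) ∨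
        w = -((t.2 : ℚ) / ((t.1 + t.2 : ℕ) : ℚ))) := by
  obtain ⟨h0, h1, h2, hX⟩ := hw
  obtain ⟨t, ht1, ht2, htc, hR, hn, hd, hform⟩ := triple_w h0 h2
  obtain ⟨β, hβ, x, y, hxy, hf⟩ := hb
  have hBpos : B ≠ 0 := by omega
  have hx : x ≠ 0 := by
    rintro rfl
    apply h0
    rw [← hxy, zero_mul]
  have hy : y ≠ 0 := by
    rintro rfl
    apply h0
    rw [← hxy, zero_pow hBpos, mul_zero]
  have hc := core2 hB hα hε hβ hx hy (by rw [hxy]; exact h2) hf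
    (c := ((t.1 + t.2 : ℕ) : ℝ)) (by rw [hxy]; exact_mod_cast hn) (by rw [hxy]; exact_mod_cast hd)
  rw [hxy] at hc
  refine ⟨t, ⟨⟨ht1, ht2, htc, ?_⟩, ?_⟩, hform⟩
  · rw [hR]; exact hX
  · have e : Pool.Agent.H81.PHL.rad ((w + 1).num.natAbs * w.num.natAbs * w.den) = Rt t := by
      unfold Rt
      rw [hR]
      unfold Pool.Agent.H81.PHL.rad Rw
      congr 2
      ring
    rw [e] at hc
    exact hc

/-- a set of `w` covered by triples -/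
theorem cover {A : Set ℚ} {E : Set (ℕ × ℕ)} (hE : E.Finite)
    (h : ∀ w ∈ A, ∃ t ∈ E, (w = (t.1 : ℚ) / t.2 ∨ w = -(((t.1 + t.2 : ℕ) : ℚ) / t.2) ∨
        w = -((t.2 : ℚ) / ((t.1 + t.2 : ℕ) : ℚ)))) :
    (A.ncard : ℝ) ≤ 3 * (E.ncard : ℝ) := by
  classical
  set E' := hE.toFinset with hE'
  set Z : Finset ℚ := (E'.image fun t : ℕ × ℕ => (t.1 : ℚ) / t.2) ∪
    ((E'.image fun t : ℕ × ℕ => -(((t.1 + t.2 : ℕ) : ℚ) / t.2)) ∪
      (E'.image fun t : ℕ × ℕ => -((t.2 : ℚ) / ((t.1 + t.2 : ℕ) : ℚ)))) with hZ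
  have hZc : Z.card ≤ 3 * E'.card := by
    calc Z.card ≤ (E'.image fun t : ℕ × ℕ => (t.1 : ℚ) / t.2).card +
          ((E'.image fun t : ℕ × ℕ => -(((t.1 + t.2 : ℕ) : ℚ) / t.2)) ∪
          (E'.image fun t : ℕ × ℕ => -((t.2 : ℚ) / ((t.1 + t.2 : ℕ) : ℚ)))).card :=
          Finset.card_union_le _ _
      _ ≤ E'.card + (E'.card + E'.card) := by
          refine Nat.add_le_add Finset.card_image_le ?_
          exact (Finset.card_union_le _ _).trans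
            (Nat.add_le_add Finset.card_image_le Finset.card_image_le)
      _ = 3 * E'.card := by ring
  have hcov : A ⊆ (Z : Set ℚ) := by
    intro w hw
    obtain ⟨t, ht, h1⟩ := h w hw
    have htE : t ∈ E' := by rw [hE', Set.Finite.mem_toFinset]; exact ht
    rw [Finset.mem_coe, hZ, Finset.mem_union, Finset.mem_union, Finset.mem_image,
      Finset.mem_image, Finset.mem_image]
    rcases h1 with h1 | h1 | h1
    · exact Or.inl ⟨t, htE, h1.symm⟩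
    · exact Or.inr (Or.inl ⟨t, htE, h1.symm⟩)
    · exact Or.inr (Or.inr ⟨t, htE, h1.symm⟩)
  have h1 := Set.ncard_le_ncard hcov (Finset.finite_toSet _)
  rw [Set.ncard_coe_finset] at h1
  have h2 : E'.card = E.ncard := (Set.ncard_eq_toFinset_card _ hE).symm
  rw [h2] at hZc
  exact_mod_cast h1.trans hZc

/-- all heights -/
theorem hi_card {θ T : ℝ} (hT : 1 / 3 ≤ T) (hCU : S_CU θ T) (hX : Pool.EXC.S_XFI)
    (hfin : ∀ X : ℝ, (Pool.VIO.Tri X).Finite) {δ : ℝ} (hδ : 0 < δ) :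
    ∃ C : ℝ, 0 ≤ C ∧ ∀ X : ℝ, 1 ≤ X → ((Hi θ X).ncard : ℝ) ≤ C * X ^ (T + δ) := by
  classical
  obtain ⟨κ0, C0, h0⟩ := hX δ hδ
  set κ1 := max κ0 1 with hκ1
  obtain ⟨C1, hC1, h1⟩ := hCU κ1 δ (le_max_right _ _) hδ
  refine ⟨C1 + max C0 0, by positivity, fun X hX1 => ?_⟩
  have hXpos : 0 < X := by linarith
  have hf : (Hi θ X).Finite := (hfin X).subset fun t ht => ht.1
  set E := hf.toFinset with hE
  set F := E.filter fun t => ((t.1 + t.2 : ℕ) : ℝ) ≤ (Rt t : ℝ) ^ κ1 with hF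
  have hFc : (F.card : ℝ) ≤ C1 * X ^ (T + δ) := by
    apply h1 X F hX1
    intro v hv
    rw [hF, Finset.mem_filter, hE, Set.Finite.mem_toFinset] at hv
    obtain ⟨⟨⟨hv1, hv2, hv3, hv4⟩, hv5⟩, hv6⟩ := hv
    have hr := one_le_Rt v
    refine ⟨⟨hv1, hv2, hv3⟩, hv4, hv5, ?_⟩
    show Real.log ((v.1 + v.2 : ℕ) : ℝ) ≤ κ1 * Real.log (Rt v : ℝ)
    rw [← Real.log_rpow (by linarith)]
    apply Real.log_le_log _ hv6
    have : 0 < v.1 + v.2 := by omega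
    exact_mod_cast this
  obtain ⟨hfin0, hcard0⟩ := h0 X hX1
  have hsub : ((E \ F : Finset (ℕ × ℕ)) : Set (ℕ × ℕ)) ⊆ Pool.VIO.Exc κ0 X := by
    intro t ht
    rw [Finset.mem_coe, Finset.mem_sdiff, hF, Finset.mem_filter, hE,
      Set.Finite.mem_toFinset] at ht
    obtain ⟨hE1, hnF⟩ := ht
    refine ⟨hE1.1, ?_⟩
    have h2 : (Rt t : ℝ) ^ κ1 < ((t.1 + t.2 : ℕ) : ℝ) := by
      by_contra hcon
      exact hnF ⟨hE1, not_lt.1 hcon⟩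
    exact lt_of_le_of_lt (Real.rpow_le_rpow_of_exponent_le (one_le_Rt t) (le_max_left _ _)) h2
  have h2 := Set.ncard_le_ncard hsub hfin0
  rw [Set.ncard_coe_finset] at h2
  have h2' : ((E \ F).card : ℝ) ≤ max C0 0 * X ^ (T + δ) := by
    calc ((E \ F).card : ℝ) ≤ ((Pool.VIO.Exc κ0 X).ncard : ℝ) := by exact_mod_cast h2
      _ ≤ C0 * X ^ (1 / 3 + δ) := hcard0
      _ ≤ max C0 0 * X ^ (1 / 3 + δ) :=
        mul_le_mul_of_nonneg_right (le_max_left _ _) (Real.rpow_nonneg hXpos.le _)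
      _ ≤ max C0 0 * X ^ (T + δ) := by
        apply mul_le_mul_of_nonneg_left _ (le_max_right _ _)
        exact Real.rpow_le_rpow_of_exponent_le hX1 (by linarith)
  have h3 : (Hi θ X).ncard = F.card + (E \ F).card := by
    rw [Set.ncard_eq_toFinset_card _ hf, ← hE]
    rw [add_comm, Finset.card_sdiff_add_card_eq_card (Finset.filter_subset _ _)]
  rw [h3]
  push_cast
  linarith

/-- THEOREM: all parameters `B ≥ 2`, `α ≥ 1`, `ε ≥ 0` (and `β ≥ 0`) at once -/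
theorem any {T : ℝ} (hT : 1 / 3 ≤ T) (hCU : S_CU (2 / 3) T) (hX : Pool.EXC.S_XFI)
    (hfin : ∀ X : ℝ, (Pool.VIO.Tri X).Finite) {δ : ℝ} (hδ : 0 < δ) :
    ∃ C : ℝ, ∀ X : ℝ, 1 ≤ X →
      ({w ∈ W X | ∃ (B : ℕ) (α ε : ℝ), 2 ≤ B ∧ 1 ≤ α ∧ 0 ≤ ε ∧ Bad B α ε w}.ncard : ℝ) ≤
        C * X ^ (T + δ) := by
  obtain ⟨C, hC, h⟩ := hi_card hT hCU hX hfin hδ
  refine ⟨3 * C, fun X hX1 => ?_⟩
  have hf : (Hi (2 / 3) X).Finite := (hfin X).subset fun t ht => ht.1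
  have h1 : ({w ∈ W X | ∃ (B : ℕ) (α ε : ℝ), 2 ≤ B ∧ 1 ≤ α ∧ 0 ≤ ε ∧ Bad B α ε w}.ncard : ℝ) ≤
      3 * ((Hi (2 / 3) X).ncard : ℝ) := by
    refine cover hf fun w hw => ?_
    obtain ⟨hw, B, α, ε, hB, hα, hε, hb⟩ := hw
    exact bad_hi hB hα hε hw hb
  have h2 := h X hX1
  linarith

/-- THEOREM: all parameters `B ≥ B₀`, `α ≥ 1`, `ε ≥ 0` (and `β ≥ 0`) at once -/
theorem large (hX : Pool.EXC.S_XFI) (hfin : ∀ X : ℝ, (Pool.VIO.Tri X).Finite) {δ : ℝ}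
    (hδ : 0 < δ) :
    ∃ (B₀ : ℕ) (C : ℝ), ∀ X : ℝ, 1 ≤ X →
      ({w ∈ W X | ∃ (B : ℕ) (α ε : ℝ), B₀ ≤ B ∧ 1 ≤ α ∧ 0 ≤ ε ∧ Bad B α ε w}.ncard : ℝ) ≤
        C * X ^ (1 / 3 + δ) := by
  obtain ⟨κ0, C0, h0⟩ := hX δ hδ
  set κ := max κ0 1 with hκ
  have hκ1 : 1 ≤ κ := le_max_right _ _
  obtain ⟨B₀, hB₀⟩ := exists_nat_ge (12 * κ)
  refine ⟨B₀, 3 * max C0 0, fun X hX1 => ?_⟩
  have hXpos : 0 < X := by linarith
  have hf : (Pool.VIO.Exc κ X).Finite := (hfin X).subset fun t ht => ht.1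
  obtain ⟨hfin0, hcard0⟩ := h0 X hX1
  have hsub : Pool.VIO.Exc κ X ⊆ Pool.VIO.Exc κ0 X := by
    rintro t ⟨ht, h1⟩
    exact ⟨ht, lt_of_le_of_lt (Real.rpow_le_rpow_of_exponent_le (one_le_Rt t)
      (le_max_left _ _)) h1⟩
  have h2 : ((Pool.VIO.Exc κ X).ncard : ℝ) ≤ max C0 0 * X ^ (1 / 3 + δ) := by
    calc ((Pool.VIO.Exc κ X).ncard : ℝ) ≤ ((Pool.VIO.Exc κ0 X).ncard : ℝ) := by
          exact_mod_cast Set.ncard_le_ncard hsub hfin0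
      _ ≤ C0 * X ^ (1 / 3 + δ) := hcard0
      _ ≤ _ := mul_le_mul_of_nonneg_right (le_max_left _ _) (Real.rpow_nonneg hXpos.le _)
  have h1 : ({w ∈ W X | ∃ (B : ℕ) (α ε : ℝ), B₀ ≤ B ∧ 1 ≤ α ∧ 0 ≤ ε ∧ Bad B α ε w}.ncard : ℝ) ≤
      3 * ((Pool.VIO.Exc κ X).ncard : ℝ) := by
    refine cover hf fun w hw => ?_
    obtain ⟨hw, B, α, ε, hB, hα, hε, β, hβ, x, y, hxy, hf'⟩ := hw
    have hBr : 12 * κ ≤ (B : ℝ) := hB₀.trans (by exact_mod_cast hB)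
    have hB0 : (0 : ℝ) < B := by linarith
    have hαB : (B : ℝ) ≤ α * B := le_mul_of_one_le_left hB0.le hα
    have hε'0 : 0 ≤ min ε 1 := le_min hε (by norm_num)
    have hε'1 : min ε 1 ≤ 1 := min_le_right _ _
    have hpar : (1 - min ε 1) * B * (2 * κ - 1) ≤ (α * B - 1) * (B - 2 * κ) := by
      have h1 : (1 - min ε 1) * B * (2 * κ - 1) ≤ B * (2 * κ - 1) := by
        apply mul_le_mul_of_nonneg_right _ (by linarith)
        have : (1 - min ε 1) * (B : ℝ) ≤ 1 * B := mul_le_mul_of_nonneg_right (by linarith) hB0.le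
        linarith
      have h2 : (B : ℝ) / 2 * (B / 2) ≤ (α * B - 1) * (B - 2 * κ) :=
        mul_le_mul (by linarith) (by linarith) (by linarith) (by linarith)
      have h3 : B * (2 * κ - 1) ≤ (B : ℝ) / 2 * (B / 2) := by
        have h4 : (B : ℝ) * (2 * κ - 1) ≤ B * (B / 4) :=
          mul_le_mul_of_nonneg_left (by linarith) hB0.le
        have h5 : (B : ℝ) * (B / 4) = B / 2 * (B / 2) := by ring
        linarith
      linarith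
    exact bad_exc hκ1 hε'0 hε'1 (by linarith) hpar hw
      ⟨β, hβ, x, y, hxy, fun hp => hf' (phil_mono hβ (min_le_left _ _) hp)⟩
  linarith

end Pool.PHW
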