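import Pool.Agent.H46.PHW.Core
import Pool.Agent.H46.VIO.Stmts
import Pool.Agent.H46.EXC.Stmts
import Pool.Agent.H10.BL.Stmts

/-!
# PHW: the inequality of Q1 in the exact parameter range, for the rational numbers `w = x y ^ B`
-/

set_option autoImplicit false

namespace Pool.PHW

open Pool.Agent.H21.PHX (H Phil num_den_div)

/-- the radical of the triple of `w` -/
def Rw (w : ℚ) : ℕ := ∏ p ∈ (w.num.natAbs * w.den * (w + 1).num.natAbs).primeFactors, p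

/-- the rational numbers `w ≠ 0, 1, -1` with `Rw w ≤ X` -/
def W (X : ℝ) : Set ℚ := {w | w ≠ 0 ∧ w ≠ 1 ∧ w ≠ -1 ∧ (Rw w : ℝ) ≤ X}

/-- the inequality fails for some `β ≥ 0` and some `x, y` with `x y ^ B = w` -/
def Bad (B : ℕ) (α ε : ℝ) (w : ℚ) : Prop :=
  ∃ β : ℝ, 0 ≤ β ∧ ∃ x y : ℚ, x * y ^ B = w ∧ ¬ Phil B α β ε x y

/-- few triples with `c ≥ R` of polynomial height: exponent `T` -/
def S_CT (T : ℝ) : Prop := ∀ κ ε : ℝ, 1 ≤ κ → 0 < ε → ∃ C : ℝ, 1 ≤ C ∧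
  ∀ (X : ℝ) (F : Finset (ℕ × ℕ)), 1 ≤ X →
  (∀ v ∈ F, Pool.Agent.H98.ABCR.IsTri v ∧ (Pool.Agent.H98.ABCR.RR v : ℝ) ≤ X ∧
    Pool.Agent.H98.ABCR.RR v ≤ v.1 + v.2 ∧
    Pool.SHA.hh v ≤ κ * Real.log (Pool.Agent.H98.ABCR.RR v)) →
  (F.card : ℝ) ≤ C * X ^ (T + ε)

/-! ## the triple -/

lemma triple_w {w : ℚ} (h0 : w ≠ 0) (h1 : w ≠ -1) :
    ∃ t : ℕ × ℕ, 0 < t.1 ∧ 0 < t.2 ∧ Nat.Coprime t.1 t.2 ∧
      (∏ p ∈ (t.1 * t.2 * (t.1 + t.2)).primeFactors, p) = Rw w ∧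
      w.num.natAbs ≤ t.1 + t.2 ∧ w.den ≤ t.1 + t.2 ∧
      (w = (t.1 : ℚ) / t.2 ∨ w = -(((t.1 + t.2 : ℕ) : ℚ) / t.2) ∨
        w = -((t.2 : ℚ) / ((t.1 + t.2 : ℕ) : ℚ))) := by
  have hw : w + 1 ≠ 0 := by
    intro h; apply h1; linarith
  obtain ⟨t, ht1, ht2, htc, hprod, hle, hzt⟩ := Pool.Agent.H21.PHX.triple w h0 hw
  have hc2 : Nat.Coprime (t.1 + t.2) t.2 := by simpa using htc
  refine ⟨t, ht1, ht2, htc, ?_, ?_, ?_, hzt⟩
  · rw [hprod]
    unfold Rw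
    congr 2
    ring
  · rcases hzt with h | h | h
    · rw [h, (num_den_div ht2 htc).1, Int.natAbs_natCast]
      omega
    · rw [h, Rat.neg_num, (num_den_div ht2 hc2).1, Int.natAbs_neg, Int.natAbs_natCast]
    · rw [h, Rat.neg_num, (num_den_div (by omega) hc2.symm).1, Int.natAbs_neg,
        Int.natAbs_natCast]
      omega
  · rcases hzt with h | h | h
    · rw [h, (num_den_div ht2 htc).2]
      omega
    · rw [h, Rat.neg_den, (num_den_div ht2 hc2).2]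
      omega
    · rw [h, Rat.neg_den, (num_den_div (by omega) hc2.symm).2]

/-- a bad `w` has an exceptional triple -/
theorem bad_exc {κ : ℝ} (hκ : 1 ≤ κ) {B : ℕ} {α ε : ℝ} (hε : 0 ≤ ε) (hε1 : ε ≤ 1) (hB : 2 * κ < B)
    (hpar : (1 - ε) * B * (2 * κ - 1) ≤ (α * B - 1) * (B - 2 * κ)) {X : ℝ} {w : ℚ} (hw : w ∈ W X)
    (hb : Bad B α ε w) :
    ∃ t ∈ Pool.VIO.Exc κ X, (w = (t.1 : ℚ) / t.2 ∨ w = -(((t.1 + t.2 : ℕ) : ℚ) / t.2) ∨
        w = -((t.2 : ℚ) / ((t.1 + t.2 : ℕ) : ℚ))) := by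
  obtain ⟨h0, h1, h2, hX⟩ := hw
  obtain ⟨t, ht1, ht2, htc, hR, hn, hd, hform⟩ := triple_w h0 h2
  obtain ⟨β, hβ, x, y, hxy, hf⟩ := hb
  have hBpos : B ≠ 0 := by
    intro h
    rw [h] at hB
    simp only [Nat.cast_zero] at hB
    linarith
  have hx : x ≠ 0 := by
    rintro rfl
    apply h0
    rw [← hxy, zero_mul]
  have hy : y ≠ 0 := by
    rintro rfl
    apply h0
    rw [← hxy, zero_pow hBpos, mul_zero]
  have hc := core hκ hε hε1 hB hpar hβ hx hy (by rw [hxy]; exact h2) hf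
    (c := ((t.1 + t.2 : ℕ) : ℝ)) (by rw [hxy]; exact_mod_cast hn) (by rw [hxy]; exact_mod_cast hd)
  rw [hxy] at hc
  refine ⟨t, ⟨⟨ht1, ht2, htc, ?_⟩, ?_⟩, hform⟩
  · rw [hR]; exact hX
  · rw [hR]
    have e : Pool.Agent.H81.PHL.rad ((w + 1).num.natAbs * w.num.natAbs * w.den) = Rw w := by
      unfold Pool.Agent.H81.PHL.rad Rw
      congr 2
      ring
    rw [e] at hc
    exact hc

/-- the bad `w` in terms of the exceptional triples -/
theorem bad_card {κ : ℝ} (hκ : 1 ≤ κ) {B : ℕ} {α ε : ℝ} (hε : 0 ≤ ε) (hε1 : ε ≤ 1)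
    (hB : 2 * κ < B) (hpar : (1 - ε) * B * (2 * κ - 1) ≤ (α * B - 1) * (B - 2 * κ)) {X : ℝ}
    (hfin : (Pool.VIO.Exc κ X).Finite) :
    ({w ∈ W X | Bad B α ε w}.ncard : ℝ) ≤ 3 * ((Pool.VIO.Exc κ X).ncard : ℝ) := by
  classical
  set E := hfin.toFinset with hE
  set Z : Finset ℚ := (E.image fun t : ℕ × ℕ => (t.1 : ℚ) / t.2) ∪
    ((E.image fun t : ℕ × ℕ => -(((t.1 + t.2 : ℕ) : ℚ) / t.2)) ∪
      (E.image fun t : ℕ × ℕ => -((t.2 : ℚ) / ((t.1 + t.2 : ℕ) : ℚ)))) with hZ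
  have hZc : Z.card ≤ 3 * E.card := by
    calc Z.card ≤ (E.image fun t : ℕ × ℕ => (t.1 : ℚ) / t.2).card +
          ((E.image fun t : ℕ × ℕ => -(((t.1 + t.2 : ℕ) : ℚ) / t.2)) ∪
          (E.image fun t : ℕ × ℕ => -((t.2 : ℚ) / ((t.1 + t.2 : ℕ) : ℚ)))).card :=
          Finset.card_union_le _ _
      _ ≤ E.card + (E.card + E.card) := by
          refine Nat.add_le_add Finset.card_image_le ?_
          exact (Finset.card_union_le _ _).trans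
            (Nat.add_le_add Finset.card_image_le Finset.card_image_le)
      _ = 3 * E.card := by ring
  have hcov : {w ∈ W X | Bad B α ε w} ⊆ (Z : Set ℚ) := by
    rintro w ⟨hw, hb⟩
    obtain ⟨t, ht, h1⟩ := bad_exc hκ hε hε1 hB hpar hw hb
    have htE : t ∈ E := by rw [hE, Set.Finite.mem_toFinset]; exact ht
    rw [Finset.mem_coe, hZ, Finset.mem_union, Finset.mem_union, Finset.mem_image,
      Finset.mem_image, Finset.mem_image]
    rcases h1 with h1 | h1 | h1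
    · exact Or.inl ⟨t, htE, h1.symm⟩
    · exact Or.inr (Or.inl ⟨t, htE, h1.symm⟩)
    · exact Or.inr (Or.inr ⟨t, htE, h1.symm⟩)
  have h1 := Set.ncard_le_ncard hcov (Finset.finite_toSet _)
  rw [Set.ncard_coe_finset] at h1
  have h2 : E.card = (Pool.VIO.Exc κ X).ncard := (Set.ncard_eq_toFinset_card _ hfin).symm
  rw [h2] at hZc
  exact_mod_cast h1.trans hZc

/-- exceptional triples for an exponent `κ > 1`, all heights -/
theorem exc_card {T : ℝ} (hT : 1 / 3 ≤ T) (hCT : S_CT T) (hX : Pool.EXC.S_XFI) {κ : ℝ} (hκ : 1 ≤ κ)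
    {δ : ℝ} (hδ : 0 < δ) : ∃ C : ℝ, 0 ≤ C ∧ ∀ X : ℝ, 1 ≤ X → (Pool.VIO.Exc κ X).Finite →
      ((Pool.VIO.Exc κ X).ncard : ℝ) ≤ C * X ^ (T + δ) := by
  classical
  obtain ⟨κ0, C0, h0⟩ := hX δ hδ
  set κ1 := max κ0 1 with hκ1
  obtain ⟨C1, hC1, h1⟩ := hCT κ1 δ (le_max_right _ _) hδ
  refine ⟨C1 + max C0 0, by positivity, fun X hX1 hfin => ?_⟩
  have hXpos : 0 < X := by linarith
  set E := hfin.toFinset with hE
  set F := E.filter fun t => ((t.1 + t.2 : ℕ) : ℝ) ≤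
    ((∏ p ∈ (t.1 * t.2 * (t.1 + t.2)).primeFactors, p : ℕ) : ℝ) ^ κ1 with hF
  have hrad1 : ∀ t : ℕ × ℕ, (1 : ℝ) ≤
      ((∏ p ∈ (t.1 * t.2 * (t.1 + t.2)).primeFactors, p : ℕ) : ℝ) := by
    intro t
    have : 0 < ∏ p ∈ (t.1 * t.2 * (t.1 + t.2)).primeFactors, p :=
      Finset.prod_pos fun p hp => (Nat.prime_of_mem_primeFactors hp).pos
    exact_mod_cast this
  have hFc : (F.card : ℝ) ≤ C1 * X ^ (T + δ) := by
    apply h1 X F hX1
    intro v hv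
    rw [hF, Finset.mem_filter, hE, Set.Finite.mem_toFinset] at hv
    obtain ⟨⟨⟨hv1, hv2, hv3, hv4⟩, hv5⟩, hv6⟩ := hv
    have hr := hrad1 v
    refine ⟨⟨hv1, hv2, hv3⟩, hv4, ?_, ?_⟩
    · have h2 : ((∏ p ∈ (v.1 * v.2 * (v.1 + v.2)).primeFactors, p : ℕ) : ℝ) ≤
          ((v.1 + v.2 : ℕ) : ℝ) := by
        refine le_trans ?_ hv5.le
        calc ((∏ p ∈ (v.1 * v.2 * (v.1 + v.2)).primeFactors, p : ℕ) : ℝ)
            = ((∏ p ∈ (v.1 * v.2 * (v.1 + v.2)).primeFactors, p : ℕ) : ℝ) ^ (1 : ℝ) :=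
              (Real.rpow_one _).symm
          _ ≤ _ := Real.rpow_le_rpow_of_exponent_le hr hκ
      exact_mod_cast h2
    · show Real.log ((v.1 + v.2 : ℕ) : ℝ) ≤
        κ1 * Real.log ((∏ p ∈ (v.1 * v.2 * (v.1 + v.2)).primeFactors, p : ℕ) : ℝ)
      rw [← Real.log_rpow (by linarith)]
      apply Real.log_le_log _ hv6
      have : 0 < v.1 + v.2 := by omega
      exact_mod_cast this
  obtain ⟨hfin0, hcard0⟩ := h0 X hX1
  have hsub : ((E \ F : Finset (ℕ × ℕ)) : Set (ℕ × ℕ)) ⊆ Pool.VIO.Exc κ0 X := by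
    intro t ht
    rw [Finset.mem_coe, Finset.mem_sdiff, hF, Finset.mem_filter, hE,
      Set.Finite.mem_toFinset] at ht
    obtain ⟨hE1, hnF⟩ := ht
    refine ⟨hE1.1, ?_⟩
    have h2 : ((∏ p ∈ (t.1 * t.2 * (t.1 + t.2)).primeFactors, p : ℕ) : ℝ) ^ κ1 <
        ((t.1 + t.2 : ℕ) : ℝ) := by
      by_contra hcon
      exact hnF ⟨hE1, not_lt.1 hcon⟩
    exact lt_of_le_of_lt (Real.rpow_le_rpow_of_exponent_le (hrad1 t) (le_max_left _ _)) h2
  have h2 := Set.ncard_le_ncard hsub hfin0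
  rw [Set.ncard_coe_finset] at h2
  have h2' : ((E \ F).card : ℝ) ≤ max C0 0 * X ^ (T + δ) := by
    calc ((E \ F).card : ℝ) ≤ ((Pool.VIO.Exc κ0 X).ncard : ℝ) := by exact_mod_cast h2
      _ ≤ C0 * X ^ (1 / 3 + δ) := hcard0
      _ ≤ max C0 0 * X ^ (1 / 3 + δ) :=
        mul_le_mul_of_nonneg_right (le_max_left _ _) (Real.rpow_nonneg hXpos.le _)
      _ ≤ max C0 0 * X ^ (T + δ) := by
        apply mul_le_mul_of_nonneg_left _ (le_max_right _ _)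
        exact Real.rpow_le_rpow_of_exponent_le hX1 (by linarith)
  have h3 : (Pool.VIO.Exc κ X).ncard = F.card + (E \ F).card := by
    rw [Set.ncard_eq_toFinset_card _ hfin, ← hE]
    rw [add_comm, Finset.card_sdiff_add_card_eq_card (Finset.filter_subset _ _)]
  rw [h3]
  push_cast
  linarith

/-- the exact range gives an exponent `κ > 1` -/
lemma range {B : ℕ} (hB : 3 ≤ B) {α ε : ℝ} (hε1 : ε < 1)
    (hr : 2 - 2 / (B : ℝ) < α * (B - 2) + ε) :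
    ∃ κ : ℝ, 1 < κ ∧ 2 * κ < B ∧ (1 - ε) * B * (2 * κ - 1) ≤ (α * B - 1) * (B - 2 * κ) := by
  have hB' : (3 : ℝ) ≤ B := by exact_mod_cast hB
  have hB0 : (0 : ℝ) < B := by linarith
  have h1 : 2 * B - 2 < α * B * (B - 2) + ε * B := by
    have h2 := mul_lt_mul_of_pos_right hr hB0
    have e1 : (2 - 2 / (B : ℝ)) * B = 2 * B - 2 := by field_simp
    have e2 : (α * (B - 2) + ε) * B = α * B * (B - 2) + ε * B := by ring
    rw [e1, e2] at h2
    exact h2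
  have hα : 1 < α * B := by
    by_contra hcon
    push Not at hcon
    have h2 : α * B * (B - 2) ≤ 1 * (B - 2) := mul_le_mul_of_nonneg_right hcon (by linarith)
    nlinarith
  -- slack `s`
  set s := α * B * (B - 2) + ε * B - (2 * B - 2) with hs
  have hs0 : 0 < s := by linarith
  set M := 2 * ((1 - ε) * B + (α * B - 1)) with hM
  have hM0 : 0 < M := by
    have : 0 < (1 - ε) * B := mul_pos (by linarith) hB0
    linarith
  set η := min (s / M) (1 / 4) with hη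
  have hη0 : 0 < η := lt_min (div_pos hs0 hM0) (by norm_num)
  have hη1 : η ≤ 1 / 4 := min_le_right _ _
  have hη2 : η * M ≤ s := by
    have : η ≤ s / M := min_le_left _ _
    rwa [le_div_iff₀ hM0] at this
  refine ⟨1 + η, by linarith, by linarith, ?_⟩
  have e : (α * B - 1) * (B - 2 * (1 + η)) - (1 - ε) * B * (2 * (1 + η) - 1) = s - η * M := by
    rw [hs, hM]; ring
  linarith

theorem one {T : ℝ} (hT : 1 / 3 ≤ T) (hCT : S_CT T) (hX : Pool.EXC.S_XFI)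
    (hfin : ∀ X : ℝ, (Pool.VIO.Tri X).Finite) {B : ℕ} (hB : 3 ≤ B) {α ε : ℝ} (hε : 0 ≤ ε)
    (hε1 : ε < 1) (hr : 2 - 2 / (B : ℝ) < α * (B - 2) + ε) {δ : ℝ} (hδ : 0 < δ) :
    ∃ C : ℝ, ∀ X : ℝ, 1 ≤ X → ({w ∈ W X | Bad B α ε w}.ncard : ℝ) ≤ C * X ^ (T + δ) := by
  obtain ⟨κ, hκ, hB2, hpar⟩ := range hB hε1 hr
  obtain ⟨C, hC, h⟩ := exc_card hT hCT hX hκ.le hδ
  refine ⟨3 * C, fun X hX1 => ?_⟩
  have hf : (Pool.VIO.Exc κ X).Finite := (hfin X).subset fun t ht => ht.1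
  have h1 := bad_card hκ.le hε hε1.le hB2 hpar hf
  have h2 := h X hX1 hf
  linarith

lemma phil_mono {B : ℕ} {α β ε ε' : ℝ} {x y : ℚ} (hβ : 0 ≤ β) (hee : ε' ≤ ε)
    (h : Phil B α β ε' x y) : Phil B α β ε x y := by
  unfold Phil at h ⊢
  refine h.trans ?_
  have hy : 0 ≤ Real.log (H y) := Real.log_nonneg (Pool.Agent.H21.PHX.one_le_H y)
  have hs : 0 ≤ β + ∑ p ∈ Pool.Agent.H21.PHX.S B x y, Real.log (p : ℝ) := by
    refine add_nonneg hβ (Finset.sum_nonneg fun p hp => ?_)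
    exact Real.log_nonneg (by exact_mod_cast (Nat.prime_of_mem_primeFactors hp).one_lt.le)
  have hB : (0 : ℝ) ≤ B := Nat.cast_nonneg _
  have h1 : ε' * B * Real.log (H y) ≤ ε * B * Real.log (H y) := by
    apply mul_le_mul_of_nonneg_right _ hy
    exact mul_le_mul_of_nonneg_right hee hB
  have h2 : B * (α * B + ε') * (β + ∑ p ∈ Pool.Agent.H21.PHX.S B x y, Real.log (p : ℝ)) ≤
      B * (α * B + ε) * (β + ∑ p ∈ Pool.Agent.H21.PHX.S B x y, Real.log (p : ℝ)) := by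
    apply mul_le_mul_of_nonneg_right _ hs
    apply mul_le_mul_of_nonneg_left _ hB
    linarith
  linarith

theorem two (hX : Pool.EXC.S_XFI) (hfin : ∀ X : ℝ, (Pool.VIO.Tri X).Finite) {α ε δ : ℝ}
    (hα : 0 < α) (hε : 0 ≤ ε) (hδ : 0 < δ) :
    ∃ B₀ : ℕ, ∀ B : ℕ, B₀ ≤ B → ∃ C : ℝ, ∀ X : ℝ, 1 ≤ X →
      ({w ∈ W X | Bad B α ε w}.ncard : ℝ) ≤ C * X ^ (1 / 3 + δ) := by
  obtain ⟨κ0, C0, h0⟩ := hX δ hδ
  set κ := max κ0 1 with hκ
  have hκ1 : 1 ≤ κ := le_max_right _ _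
  set ε' := min ε 1 with hε'
  have hε'0 : 0 ≤ ε' := le_min hε (by norm_num)
  have hε'1 : ε' ≤ 1 := min_le_right _ _
  obtain ⟨B₀, hB₀⟩ := exists_nat_ge (4 * κ + 2 / α + 4 * (2 * κ - 1) / α + 1)
  refine ⟨B₀, fun B hBB => ⟨3 * max C0 0, fun X hX1 => ?_⟩⟩
  have hBr : 4 * κ + 2 / α + 4 * (2 * κ - 1) / α + 1 ≤ (B : ℝ) := hB₀.trans (by exact_mod_cast hBB)
  have q1 : 0 ≤ 2 / α := by positivity
  have q2 : 0 ≤ 4 * (2 * κ - 1) / α := div_nonneg (by linarith) hα.le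
  have hB0 : (0 : ℝ) < B := by linarith
  have hBκ : 4 * κ ≤ B := by linarith
  have hαB : 2 ≤ α * B := by
    have : 2 / α ≤ B := by linarith
    rw [div_le_iff₀ hα] at this; linarith
  have hαB2 : 4 * (2 * κ - 1) ≤ α * B := by
    have : 4 * (2 * κ - 1) / α ≤ B := by linarith
    rw [div_le_iff₀ hα] at this; linarith
  have hpar : (1 - ε') * B * (2 * κ - 1) ≤ (α * B - 1) * (B - 2 * κ) := by
    have h1 : (1 - ε') * B * (2 * κ - 1) ≤ B * (2 * κ - 1) := by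
      apply mul_le_mul_of_nonneg_right _ (by linarith)
      nlinarith
    have h2 : α * B / 2 * (B / 2) ≤ (α * B - 1) * (B - 2 * κ) := by
      apply mul_le_mul <;> nlinarith
    have h3 : B * (2 * κ - 1) ≤ α * B / 2 * (B / 2) := by
      have := mul_le_mul_of_nonneg_left hαB2 (show 0 ≤ (B : ℝ) / 4 by positivity)
      nlinarith
    linarith
  have hXpos : 0 < X := by linarith
  have hf : (Pool.VIO.Exc κ X).Finite := (hfin X).subset fun t ht => ht.1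
  obtain ⟨hfin0, hcard0⟩ := h0 X hX1
  have h1 := bad_card hκ1 hε'0 hε'1 (by linarith) hpar hf
  have hsub : Pool.VIO.Exc κ X ⊆ Pool.VIO.Exc κ0 X := by
    rintro t ⟨ht, h1⟩
    refine ⟨ht, lt_of_le_of_lt ?_ h1⟩
    apply Real.rpow_le_rpow_of_exponent_le
    · have : 0 < ∏ p ∈ (t.1 * t.2 * (t.1 + t.2)).primeFactors, p :=
        Finset.prod_pos fun p hp => (Nat.prime_of_mem_primeFactors hp).pos
      exact_mod_cast this
    · exact le_max_left _ _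
  have h2 : ((Pool.VIO.Exc κ X).ncard : ℝ) ≤ max C0 0 * X ^ (1 / 3 + δ) := by
    calc ((Pool.VIO.Exc κ X).ncard : ℝ) ≤ ((Pool.VIO.Exc κ0 X).ncard : ℝ) := by
          exact_mod_cast Set.ncard_le_ncard hsub hfin0
      _ ≤ C0 * X ^ (1 / 3 + δ) := hcard0
      _ ≤ _ := mul_le_mul_of_nonneg_right (le_max_left _ _) (Real.rpow_nonneg hXpos.le _)
  have h3 : ({w ∈ W X | Bad B α ε w}.ncard : ℝ) ≤ ({w ∈ W X | Bad B α ε' w}.ncard : ℝ) := by
    have hs : {w ∈ W X | Bad B α ε w} ⊆ {w ∈ W X | Bad B α ε' w} := by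
      rintro w ⟨hw, β, hβ, x, y, hxy, hf'⟩
      exact ⟨hw, β, hβ, x, y, hxy, fun hp => hf' (phil_mono hβ (min_le_left _ _) hp)⟩
    have hfb : {w ∈ W X | Bad B α ε' w}.Finite := by
      classical
      refine (((hf.image fun t : ℕ × ℕ => (t.1 : ℚ) / t.2).union
        ((hf.image fun t : ℕ × ℕ => -(((t.1 + t.2 : ℕ) : ℚ) / t.2)).union
          (hf.image fun t : ℕ × ℕ => -((t.2 : ℚ) / ((t.1 + t.2 : ℕ) : ℚ)))))).subset ?_
      rintro w ⟨hw, hb⟩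
      obtain ⟨t, ht, h1⟩ := bad_exc hκ1 hε'0 hε'1 (by linarith) hpar hw hb
      rcases h1 with h1 | h1 | h1
      · exact Or.inl ⟨t, ht, h1.symm⟩
      · exact Or.inr (Or.inl ⟨t, ht, h1.symm⟩)
      · exact Or.inr (Or.inr ⟨t, ht, h1.symm⟩)
    exact_mod_cast Set.ncard_le_ncard hs hfb
  linarith

/-- finitely many `w`, and many -/
theorem count (hfin : ∀ X : ℝ, (Pool.VIO.Tri X).Finite) (X : ℝ) :
    (W X).Finite ∧ ((Pool.VIO.Tri X).ncard : ℝ) - 1 ≤ ((W X).ncard : ℝ) := by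
  classical
  have hWf : (W X).Finite := by
    refine ((((hfin X).image fun t : ℕ × ℕ => (t.1 : ℚ) / t.2).union
      (((hfin X).image fun t : ℕ × ℕ => -(((t.1 + t.2 : ℕ) : ℚ) / t.2)).union
        ((hfin X).image fun t : ℕ × ℕ => -((t.2 : ℚ) / ((t.1 + t.2 : ℕ) : ℚ)))))).subset ?_
    rintro w ⟨h0, h1, h2, hX⟩
    obtain ⟨t, ht1, ht2, htc, hR, hn, hd, hform⟩ := triple_w h0 h2
    have ht : t ∈ Pool.VIO.Tri X := ⟨ht1, ht2, htc, by rw [hR]; exact hX⟩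
    rcases hform with h1 | h1 | h1
    · exact Or.inl ⟨t, ht, h1.symm⟩
    · exact Or.inr (Or.inl ⟨t, ht, h1.symm⟩)
    · exact Or.inr (Or.inr ⟨t, ht, h1.symm⟩)
  refine ⟨hWf, ?_⟩
  set P := (hfin X).toFinset with hP
  have hmaps : ∀ t ∈ ((P.erase (1, 1) : Finset (ℕ × ℕ)) : Set (ℕ × ℕ)),
      (t.1 : ℚ) / t.2 ∈ W X := by
    intro t ht
    rw [Finset.mem_coe, Finset.mem_erase, hP, Set.Finite.mem_toFinset] at ht
    obtain ⟨hne, h1, h2, hc, hX⟩ := ht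
    have haq : (0 : ℚ) < t.1 := by exact_mod_cast h1
    have hbq : (0 : ℚ) < t.2 := by exact_mod_cast h2
    have hpos : (0 : ℚ) < (t.1 : ℚ) / t.2 := div_pos haq hbq
    obtain ⟨hnum, hden⟩ := num_den_div h2 hc
    have hnum1 : ((t.1 : ℚ) / t.2 + 1).num = ((t.1 + t.2 : ℕ) : ℤ) := by
      rw [(Pool.Agent.H81.PHL.num_den_add_one _).1, hnum, hden]; push_cast; ring
    refine ⟨hpos.ne', ?_, ?_, ?_⟩
    · intro h
      rw [div_eq_one_iff_eq hbq.ne'] at h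
      have h' : t.1 = t.2 := by exact_mod_cast h
      have h1 : t.1 = 1 := by
        rw [← h'] at hc
        exact (Nat.coprime_self _).1 hc
      exact hne (Prod.ext h1 (by rw [← h', h1]))
    · intro h
      linarith
    · unfold Rw
      rw [hnum1, hnum, hden, Int.natAbs_natCast, Int.natAbs_natCast]
      exact hX
  have hinj : Set.InjOn (fun t : ℕ × ℕ => (t.1 : ℚ) / t.2)
      ((P.erase (1, 1) : Finset (ℕ × ℕ)) : Set (ℕ × ℕ)) := by
    intro t ht t' ht' heq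
    rw [Finset.mem_coe, Finset.mem_erase, hP, Set.Finite.mem_toFinset] at ht ht'
    simp only at heq
    obtain ⟨n1, d1⟩ := num_den_div ht.2.2.1 ht.2.2.2.1
    obtain ⟨n2, d2⟩ := num_den_div ht'.2.2.1 ht'.2.2.2.1
    refine Prod.ext ?_ ?_
    · have : (t.1 : ℤ) = t'.1 := by rw [← n1, ← n2, heq]
      exact_mod_cast this
    · rw [← d1, ← d2, heq]
  have h1 := Set.ncard_le_ncard_of_injOn _ hmaps hinj hWf
  rw [Set.ncard_coe_finset] at h1
  have h1' : P.card - 1 ≤ (W X).ncard := le_trans Finset.pred_card_le_card_erase h1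
  have h2 : P.card = (Pool.VIO.Tri X).ncard := (Set.ncard_eq_toFinset_card _ (hfin X)).symm
  have : (Pool.VIO.Tri X).ncard ≤ (W X).ncard + 1 := by omega
  have : ((Pool.VIO.Tri X).ncard : ℝ) ≤ (W X).ncard + 1 := by exact_mod_cast this
  linarith

end Pool.PHW
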