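import Pool.Agent.H46.PHW.Any
import Pool.Agent.H46.EXC.AllY
import Pool.Agent.H10.LDV.All

set_option autoImplicit false

namespace Pool.PHW.Res

/-- the height `H(r) = max (|num r|, den r)`, so that `h = log H` -/
noncomputable def H (r : ℚ) : ℝ := max |((r.num : ℤ) : ℝ)| ((r.den : ℕ) : ℝ)

/-- the set `S` of the primes dividing the numerator of `x y ^ B + 1` -/
def S (B : ℕ) (x y : ℚ) : Finset ℕ := (x * y ^ B + 1).num.natAbs.primeFactors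

/-- the inequality of Q1 at the pair `x, y` -/
def Phil (B : ℕ) (α β ε : ℝ) (x y : ℚ) : Prop :=
  -(∑ p ∈ S B x y, Real.log ((padicNorm p (x * y ^ B + 1) : ℚ) : ℝ)) ≤
    α * B * Real.log (H x) + ε * B * Real.log (H y) +
      B * (α * B + ε) * (β + ∑ p ∈ S B x y, Real.log (p : ℝ))

/-- the product `rad n` of the primes dividing `n` -/
def rad (n : ℕ) : ℕ := ∏ p ∈ n.primeFactors, p

/-- the rational numbers `w ≠ 0, 1, -1` with `rad (num w * den w * num (w + 1)) ≤ X` -/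
def W (X : ℝ) : Set ℚ :=
  {w | w ≠ 0 ∧ w ≠ 1 ∧ w ≠ -1 ∧ (rad (w.num.natAbs * w.den * (w + 1).num.natAbs) : ℝ) ≤ X}

/-- the `w` for which the inequality fails for some `B ≥ B₀`, `α ≥ 1`, `β, ε ≥ 0` and some `x, y`
with `x y ^ B = w` -/
def Bad (B₀ : ℕ) : Set ℚ :=
  {w | ∃ (B : ℕ) (α β ε : ℝ) (x y : ℚ), B₀ ≤ B ∧ 1 ≤ α ∧ 0 ≤ β ∧ 0 ≤ ε ∧ x * y ^ B = w ∧
    ¬ Phil B α β ε x y}

/-- the pairs `(a, b)` of coprime positive integers with `R = rad (a b (a + b)) ≤ X` and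
`a + b > R ^ K` -/
def Exc (K X : ℝ) : Set (ℕ × ℕ) :=
  {t | 0 < t.1 ∧ 0 < t.2 ∧ Nat.Coprime t.1 t.2 ∧ (rad (t.1 * t.2 * (t.1 + t.2)) : ℝ) ≤ X ∧
    (rad (t.1 * t.2 * (t.1 + t.2)) : ℝ) ^ K < ((t.1 + t.2 : ℕ) : ℝ)}

/-- (1) Q1's own inequality, for all parameters `B ≥ 2`, `α ≥ 1`, `β, ε ≥ 0` and all `x, y` with
`x y ^ B = w`: it holds for all but `C X ^ (3 / 5 + δ)` of the `w` in `W X`; for all `B ≥ B₀`:
for all but `C X ^ (1 / 3 + δ)` of them.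
(2) For `ε > 0` there are `K, C` such that for `X, Y ≥ 1` at most `C X ^ (1 / 3 + ε)` pairs of
coprime positive integers with `R ≤ X` have `a + b > R ^ K`, and at most
`C X ^ (1 / 4 + ε) Y ^ (1 / 4)` of them have one of the radicals of `a`, `b`, `a + b` at most `Y`. -/
theorem result :
    (∀ δ : ℝ, 0 < δ → ∃ (B₀ : ℕ) (C : ℝ), ∀ X : ℝ, 1 ≤ X →
      (W X).Finite ∧ X ^ (2 / 3 : ℝ) / 32 - 1 ≤ ((W X).ncard : ℝ) ∧
      ((W X ∩ Bad 2).ncard : ℝ) ≤ C * X ^ (3 / 5 + δ) ∧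
      ((W X ∩ Bad B₀).ncard : ℝ) ≤ C * X ^ (1 / 3 + δ)) ∧
    ∀ ε : ℝ, 0 < ε → ∃ K C : ℝ, ∀ X : ℝ, 1 ≤ X →
      (Exc K X).Finite ∧ ((Exc K X).ncard : ℝ) ≤ C * X ^ (1 / 3 + ε) ∧
      ∀ Y : ℝ, 1 ≤ Y →
        ({t ∈ Exc K X | (rad t.1 : ℝ) ≤ Y ∨ (rad t.2 : ℝ) ≤ Y ∨
          (rad (t.1 + t.2) : ℝ) ≤ Y}.ncard : ℝ) ≤ C * X ^ (1 / 4 + ε) * Y ^ (1 / 4 : ℝ) := by
  have hfin : ∀ X : ℝ, (Pool.VIO.Tri X).Finite := by
    intro X
    obtain ⟨c0, C, κ, _, h⟩ := Pool.VIO.all_FIV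
    refine (h (max X 2) (le_max_right _ _)).1.subset ?_
    rintro t ⟨h1, h2, h3, h4⟩
    exact ⟨h1, h2, h3, h4.trans (le_max_left _ _)⟩
  have hW : ∀ X : ℝ, W X = Pool.PHW.W X := fun X => rfl
  have hB : ∀ (B₀ : ℕ) (X : ℝ), W X ∩ Bad B₀ = {w ∈ Pool.PHW.W X | ∃ (B : ℕ) (α ε : ℝ),
      B₀ ≤ B ∧ 1 ≤ α ∧ 0 ≤ ε ∧ Pool.PHW.Bad B α ε w} := by
    intro B₀ X
    ext w
    constructor
    · rintro ⟨hw, B, α, β, ε, x, y, h1, h2, h3, h4, h5, h6⟩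
      exact ⟨hw, B, α, ε, h1, h2, h4, β, h3, x, y, h5, h6⟩
    · rintro ⟨hw, B, α, ε, h1, h2, h4, β, h3, x, y, h5, h6⟩
      exact ⟨hw, B, α, β, ε, x, y, h1, h2, h3, h4, h5, h6⟩
  have hCU : Pool.PHW.S_CU (2 / 3) (3 / 5) := by
    intro κ ε hκ hε
    obtain ⟨C, hC, h⟩ := Pool.LDV.all_LDR (2 / 3) κ ε (by norm_num) (by linarith) hκ hε
    refine ⟨C, hC, fun X F hX hF => ?_⟩
    have := h X F hX hF
    have e : max (1 - 2 / 3 : ℝ) (3 / 5) = 3 / 5 := by norm_num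
    rwa [e] at this
  refine ⟨?_, ?_⟩
  · intro δ hδ
    obtain ⟨C1, h1⟩ := Pool.PHW.any (by norm_num) hCU Pool.EXC.all_XFI hfin hδ
    obtain ⟨B₀, C2, h2⟩ := Pool.PHW.large Pool.EXC.all_XFI hfin hδ
    refine ⟨B₀, max C1 C2, fun X hX => ?_⟩
    have hX0 : 0 < X := by linarith
    refine ⟨?_, ?_, ?_, ?_⟩
    · rw [hW]
      exact (Pool.PHW.count hfin X).1
    · rcases lt_or_ge X 2 with hX2 | hX2
      · have h1 : X ^ (2 / 3 : ℝ) ≤ X ^ (1 : ℝ) :=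
          Real.rpow_le_rpow_of_exponent_le hX (by norm_num)
        rw [Real.rpow_one] at h1
        have h2 : (0 : ℝ) ≤ (W X).ncard := Nat.cast_nonneg _
        linarith
      · rw [hW]
        refine le_trans ?_ (Pool.PHW.count hfin X).2
        obtain ⟨c0, C, κ, _, h⟩ := Pool.VIO.all_FIV
        have := (h X hX2).2.1
        linarith
    · rw [hB]
      exact (h1 X hX).trans (mul_le_mul_of_nonneg_right (le_max_left _ _)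
        (Real.rpow_nonneg hX0.le _))
    · rw [hB]
      exact (h2 X hX).trans (mul_le_mul_of_nonneg_right (le_max_right _ _)
        (Real.rpow_nonneg hX0.le _))
  · intro ε hε
    obtain ⟨K, C, h⟩ := Pool.EXC.all_YFI ε hε
    refine ⟨K, C, fun X hX => ?_⟩
    obtain ⟨h1, h2, h3⟩ := h X hX
    have he : Exc K X = Pool.VIO.Exc K X := by
      ext t
      exact ⟨fun ⟨a, b, c, d, e⟩ => ⟨⟨a, b, c, d⟩, e⟩, fun ⟨⟨a, b, c, d⟩, e⟩ => ⟨a, b, c, d, e⟩⟩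
    rw [he]
    exact ⟨h1, h3, h2⟩

end Pool.PHW.Res
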